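import Pool.Agent.helper4.RT.AllM
import Pool.Agent.helper23.RT.SpecS
import Pool.Agent.helper25.RT.SpecL

/-!
# THEOREM R (MP_70a088_an), prefix rt:, geometric part: THE ASSEMBLY (helper7): `R0G_stmt` from the outputs of the blocks
-/

set_option autoImplicit false

open Complex Metric Set Filter Topology MeasureTheory
open HY (UD T S hd UN RM)

noncomputable section

namespace RT

/-- everything that is known for a fixed large `M`. -/
theorem R0G_MM (hLCL : LCL_stmt) (hLDP : LDP_stmt) (hLFA : LFA_stmt) (hCCQ : CCQ_stmt) (hPPS : PPS_stmt)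
    (Y : Dyn) (s δ e₀ : ℝ) (hY : Ok Y s δ e₀) : ∃ M : ℕ, MM Y s M := by
  obtain ⟨M₁, h11, h12⟩ := hLCL Y s δ e₀ hY
  obtain ⟨M₂, h21, h22⟩ := hLDP Y s δ e₀ hY
  obtain ⟨M₃, h31, h32⟩ := hLFA Y s δ e₀ hY
  obtain ⟨M₄, h41, h42⟩ := hPPS Y s δ e₀ hY
  refine ⟨max (max M₁ M₂) (max M₃ M₄), ?_, ?_, ?_, ?_, ?_, ?_⟩
  · exact le_trans h11 (le_trans (le_max_left _ _) (le_max_left _ _))
  · exact (h12 _ (le_trans (le_max_left _ _) (le_max_left _ _))).1
  · exact h22 _ (le_trans (le_max_right _ _) (le_max_left _ _))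
  · exact h32 _ (le_trans (le_max_left _ _) (le_max_right _ _))
  · exact hCCQ Y s δ e₀ hY _ (le_trans h11 (le_trans (le_max_left _ _) (le_max_left _ _)))
  · exact h42 _ (le_trans (le_max_right _ _) (le_max_right _ _))

/-- THE GEOMETRIC PART from the outputs of the blocks L, C, S, M, E. -/
theorem R0G_of (hLCL : LCL_stmt) (hLDP : LDP_stmt) (hLFA : LFA_stmt) (hCCQ : CCQ_stmt) (hPPS : PPS_stmt)
    (hMOU : MOU_stmt) (hEFN : EFN_stmt) : R0G_stmt := by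
  intro Y s δ e₀ κ V hY hV hfin hN B m x hT hthin
  obtain ⟨M, hM⟩ := R0G_MM hLCL hLDP hLFA hCCQ hPPS Y s δ e₀ hY
  obtain ⟨σ, c₂, K, hc₂, hc₂s, hK, _, hσ, hσall, hσD, hA, hB, _⟩ :=
    hMOU Y s δ e₀ κ V hY hV M hM _ B m x hT hthin hfin rfl
  refine hEFN Y s δ e₀ κ V hY hV M _ B m x σ hM.clb hT hN (fun j => (hσ j).1) hσall hσD ?_ ?_
  · intro j
    obtain ⟨n₂, hn₂⟩ := hA j
    refine ⟨c₂, K, n₂, hc₂, hc₂s, le_trans zero_le_one hK, fun n hn => ?_⟩
    obtain ⟨t, c, hFA, _, hfc, X, hX⟩ := hn₂ n hn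
    refine ⟨t, c, X, hFA.cp, hfc, hX.1, le_trans hX.2 ?_⟩
    have h1 : (1 : ℝ) / (K + 1) ≤ 1 / K := by
      apply one_div_le_one_div_of_le
      · linarith
      · linarith
    linarith
  · intro j
    exact ⟨0, fun n _ => hB j (V n) (hV.lv n)⟩

end RT
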